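import Mathlib
import Pool.Agent.Helper213.Sidon.Prime

set_option autoImplicit false

namespace Pool.Agent.Results.MP_1efb31_co.AtMostOne

open Filter

/-- The cells of the board: the points `(x, y)` with `1 ≤ x, y ≤ n`. -/
def grid (n : ℕ) : Set (ℕ × ℕ) := {a | 1 ≤ a.1 ∧ a.1 ≤ n ∧ 1 ≤ a.2 ∧ a.2 ≤ n}

/-- A cell as a point of the real plane. -/
def pt (a : ℕ × ℕ) : ℝ × ℝ := ((a.1 : ℝ), (a.2 : ℝ))

/-- No three distinct points of `S` lie on a common straight line of the real plane. -/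
def NoThreeInLine (S : Set (ℕ × ℕ)) : Prop :=
  ∀ a ∈ S, ∀ b ∈ S, ∀ c ∈ S, a ≠ b → a ≠ c → b ≠ c → ¬ Collinear ℝ {pt a, pt b, pt c}

/-- The colouring `f` of the cells is admissible: every colour class has the
no-three-in-line property. -/
def Admissible (n k : ℕ) (f : ℕ × ℕ → Fin k) : Prop :=
  ∀ i : Fin k, NoThreeInLine {a | a ∈ grid n ∧ f a = i}

/-- Collinear points have vanishing determinant. -/
lemma det_eq_zero {a b c : ℝ × ℝ} (h : Collinear ℝ {a, b, c}) :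
    (b.1 - a.1) * (c.2 - a.2) - (b.2 - a.2) * (c.1 - a.1) = 0 := by
  obtain ⟨v, hv⟩ := (collinear_iff_of_mem (p₀ := a) (by simp)).1 h
  obtain ⟨r, hr⟩ := hv b (by simp)
  obtain ⟨s, hs⟩ := hv c (by simp)
  have h1 : b.1 = r * v.1 + a.1 := by rw [hr]; simp
  have h2 : b.2 = r * v.2 + a.2 := by rw [hr]; simp
  have h3 : c.1 = s * v.1 + a.1 := by rw [hs]; simp
  have h4 : c.2 = s * v.2 + a.2 := by rw [hs]; simp
  rw [h1, h2, h3, h4]
  ring

lemma eq_of_cast {p n x y : ℕ} (hn : n ≤ p) (hx : 1 ≤ x) (hx' : x ≤ n) (hy : 1 ≤ y)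
    (hy' : y ≤ n) (h : (x : ZMod p) = (y : ZMod p)) : x = y := by
  have h1 := (ZMod.natCast_eq_natCast_iff x y p).1 h
  rcases le_total x y with hxy | hxy
  · have h2 := (Nat.modEq_iff_dvd' hxy).1 h1
    have h3 := Nat.eq_zero_of_dvd_of_lt h2 (by omega)
    omega
  · have h2 := (Nat.modEq_iff_dvd' hxy).1 h1.symm
    have h3 := Nat.eq_zero_of_dvd_of_lt h2 (by omega)
    omega

/-- The colouring by `y - x ^ 2` modulo `p`. -/
noncomputable def col (p : ℕ) [NeZero p] (a : ℕ × ℕ) : Fin p :=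
  ⟨((a.2 : ZMod p) - (a.1 : ZMod p) ^ 2).val, ZMod.val_lt _⟩

lemma admissible_col {n p : ℕ} (hp : p.Prime) (hn : n ≤ p) :
    ∃ f : ℕ × ℕ → Fin p, Admissible n p f := by
  have : Fact p.Prime := ⟨hp⟩
  refine ⟨col p, ?_⟩
  rintro i a ⟨ha, hai⟩ b ⟨hb, hbi⟩ c ⟨hc, hci⟩ hab hac hbc hcol
  obtain ⟨ha1, ha2, ha3, ha4⟩ := ha
  obtain ⟨hb1, hb2, hb3, hb4⟩ := hb
  obtain ⟨hc1, hc2, hc3, hc4⟩ := hc
  have key : ∀ u v : ℕ × ℕ, col p u = i → col p v = i →
      (v.2 : ZMod p) - (u.2 : ZMod p) = (v.1 : ZMod p) ^ 2 - (u.1 : ZMod p) ^ 2 := by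
    intro u v hu hv
    have h1 : col p u = col p v := hu.trans hv.symm
    have h2 := congrArg Fin.val h1
    have h3 := ZMod.val_injective p h2
    linear_combination -h3
  have hdet := det_eq_zero hcol
  have hdetZ : ((b.1 : ℤ) - a.1) * ((c.2 : ℤ) - a.2) - ((b.2 : ℤ) - a.2) * ((c.1 : ℤ) - a.1) = 0 := by
    have : (((((b.1 : ℤ) - a.1) * ((c.2 : ℤ) - a.2) - ((b.2 : ℤ) - a.2) * ((c.1 : ℤ) - a.1) : ℤ)) : ℝ)
        = 0 := by
      push_cast
      simpa [pt] using hdet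
    exact_mod_cast this
  have hdetp : ((b.1 : ZMod p) - a.1) * ((c.2 : ZMod p) - a.2)
      - ((b.2 : ZMod p) - a.2) * ((c.1 : ZMod p) - a.1) = 0 := by
    have := congrArg (Int.cast : ℤ → ZMod p) hdetZ
    push_cast at this
    simpa using this
  rw [key a b hai hbi, key a c hai hci] at hdetp
  have hfac : ((b.1 : ZMod p) - a.1) * (((c.1 : ZMod p) - a.1) * ((c.1 : ZMod p) - b.1)) = 0 := by
    linear_combination hdetp
  have hfin : ∀ u v : ℕ × ℕ, 1 ≤ u.1 → u.1 ≤ n → 1 ≤ u.2 → u.2 ≤ n → 1 ≤ v.1 → v.1 ≤ n →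
      1 ≤ v.2 → v.2 ≤ n → col p u = i → col p v = i → (v.1 : ZMod p) - (u.1 : ZMod p) = 0 → u = v := by
    intro u v hu1 hu2 hu3 hu4 hv1 hv2 hv3 hv4 hu hv h
    have e1 : u.1 = v.1 := eq_of_cast hn hu1 hu2 hv1 hv2 (by linear_combination -h)
    have e2 : u.2 = v.2 := by
      apply eq_of_cast hn hu3 hu4 hv3 hv4
      have := key u v hu hv
      rw [e1] at this
      linear_combination -this
    exact Prod.ext e1 e2
  rcases mul_eq_zero.1 hfac with h | h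
  · exact hab (hfin a b ha1 ha2 ha3 ha4 hb1 hb2 hb3 hb4 hai hbi h)
  · rcases mul_eq_zero.1 h with h | h
    · exact hac (hfin a c ha1 ha2 ha3 ha4 hc1 hc2 hc3 hc4 hai hci h)
    · exact hbc (hfin b c hb1 hb2 hb3 hb4 hc1 hc2 hc3 hc4 hbi hci h)

/-- The `n × n` grid has an admissible colouring with `p` colours for every prime `p ≥ n`; hence
for every `ε > 0` and all sufficiently large `n` it has one with at most `(1 + ε) n` colours. -/
theorem result :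
    (∀ n p : ℕ, p.Prime → n ≤ p → ∃ f : ℕ × ℕ → Fin p, Admissible n p f) ∧
    (∀ ε : ℝ, 0 < ε → ∀ᶠ n : ℕ in atTop, ∃ k : ℕ, (k : ℝ) ≤ (1 + ε) * (n : ℝ) ∧
      ∃ f : ℕ × ℕ → Fin k, Admissible n k f) := by
  refine ⟨fun n p hp hn => admissible_col hp hn, ?_⟩
  intro ε hε
  have h := Pool.Agent.Helper213.Sidon.prime_between ε hε
  have h' := tendsto_natCast_atTop_atTop (R := ℝ) |>.eventually h
  filter_upwards [h'] with n hn
  obtain ⟨p, hp, h1, h2⟩ := hn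
  exact ⟨p, h2, admissible_col hp (by exact_mod_cast h1.le)⟩

end Pool.Agent.Results.MP_1efb31_co.AtMostOne
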